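import Pool.Agent.LinFor.Converse

/-!
# Isomorphic decompositions of cubic graphs and vertex partitions
-/

set_option autoImplicit false

namespace Pool.Agent.Results.MP_098c70_co.Characterization

open Pool.Agent.LinFor

/-- A finite cubic graph has a decomposition into two isomorphic `(k + 2)`-linear forests without
components that are single edges if and only if it has a set `A` of vertices such that `G[A]` is a
`k`-linear forest isomorphic to `G[Aᶜ]`, exactly `|V|` edges join `A` to its complement and every
set `S` of vertices contains at most `|S|` of these edges. -/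
theorem result {V : Type*} [Finite V] (G : SimpleGraph V)
    (hG : ∀ v, (G.neighborSet v).ncard = 3) (k : ℕ) :
    (∃ F₁ F₂ : SimpleGraph V, LinearForest (k + 2) F₁ ∧ LinearForest (k + 2) F₂ ∧
      F₁ ⊔ F₂ = G ∧ Disjoint F₁ F₂ ∧ Nonempty (F₁ ≃g F₂) ∧ NoEdgeComponent F₁ ∧
      NoEdgeComponent F₂) ↔
    ∃ A : Set V, LinearForest k (G.induce A) ∧ Nonempty (G.induce A ≃g G.induce Aᶜ) ∧
      (cross G A).edgeSet.ncard = Nat.card V ∧
      ∀ S : Set V, {e ∈ (cross G A).edgeSet | ∀ v ∈ e, v ∈ S}.ncard ≤ S.ncard := by
  constructor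
  · rintro ⟨F₁, F₂, h1, h2, hs, hd, hiso, hn1, hn2⟩
    exact converse hG h1 h2 hs hd hiso hn1 hn2
  · rintro ⟨A, hA, hiso, hE, hS⟩
    exact forward hG hA hiso hE hS

end Pool.Agent.Results.MP_098c70_co.Characterization
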