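import Pool.Agent.H1LA.Last

namespace Pool.Agent.Results.MP_098c70_co.ClawFree

open SimpleGraph Pool.Agent.H1LA

universe u

/-- (1) Every finite connected bridgeless claw-free cubic graph with `4 ∣ |V|` splits into two
isomorphic 4-linear forests. (2) So does every finite connected cubic graph with `4 ∣ |V|` (bridges
allowed) in which every vertex lies in a triangle, no edge lies in two triangles, and which has a
perfect matching containing an edge of every triangle. (3) If any finite graph `G` splits into two
isomorphic 4-linear forests, so does the graph obtained by replacing an edge `uv` by a diamond. -/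
theorem result :
    (∀ (V : Type u) [Finite V] (G : SimpleGraph V), IsCubic G → G.Connected →
      (∀ e ∈ G.edgeSet, ¬ G.IsBridge e) → ClawFree G → 4 ∣ Nat.card V → Splits 4 G) ∧
    (∀ (V : Type u) [Finite V] (G : SimpleGraph V), IsCubic G → G.Connected → 4 ∣ Nat.card V →
      (∀ x, ∃ y z, G.Adj x y ∧ G.Adj x z ∧ G.Adj y z) →
      (∀ x y z w, G.Adj x y → G.Adj x z → G.Adj y z → G.Adj x w → G.Adj y w → z = w) →
      (∃ N : G.Subgraph, N.IsPerfectMatching ∧
        ∀ x y z, G.Adj x y → G.Adj x z → G.Adj y z → N.Adj x y ∨ N.Adj x z ∨ N.Adj y z) →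
      Splits 4 G) ∧
    (∀ (V : Type u) [Finite V] (G : SimpleGraph V) (u v : V), G.Adj u v → Splits 4 G →
      Splits 4 (diamond G u v)) :=
  ⟨fun V _ G hG hconn hbr hclaw h4 => clawFree_main V G hG hconn hbr hclaw h4,
    fun _ _ _ hG hconn h4 htri hone hN => claw_main hG hconn h4 htri hone hN,
    fun _ _ _ _ _ huv h => splits_diamond h huv⟩

end Pool.Agent.Results.MP_098c70_co.ClawFree
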