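import Pool.Agent.H1LA.Cover

namespace Pool.Agent.Results.MP_098c70_co.CoveringLift

open SimpleGraph Pool.Agent.H1LA

/-- If `f : G → H` is a covering of graphs with all fibres of the same size `d` and the edges
of `H` split into two isomorphic `k`-linear forests, then so do the edges of `G`. -/
theorem result {V W : Type*} [Finite V] (k d : ℕ) (G : SimpleGraph V) (H : SimpleGraph W)
    (f : V → W) (hf : IsCovering G H f) (hd : ∀ w, Nat.card {x // f x = w} = d)
    (hH : ∃ F₁ F₂ : SimpleGraph W, IsDecomp H F₁ F₂ ∧ IsLinearForest k F₁ ∧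
      IsLinearForest k F₂ ∧ Nonempty (F₁ ≃g F₂)) :
    ∃ F₁ F₂ : SimpleGraph V, IsDecomp G F₁ F₂ ∧ IsLinearForest k F₁ ∧
      IsLinearForest k F₂ ∧ Nonempty (F₁ ≃g F₂) :=
  cover_main hf hd hH

end Pool.Agent.Results.MP_098c70_co.CoveringLift
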