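import Pool.Agent.H1LA.Main

namespace Pool.Agent.Results.MP_098c70_co.ThreeLinear

open SimpleGraph Pool.Agent.H1LA

/-- For a finite cubic graph `G` the following are equivalent: the edges split into two
3-linear forests; they split into two isomorphic 3-linear forests; the vertices have a
2-colouring in which every vertex has exactly one neighbour of its own colour. -/
theorem result {V : Type*} [Finite V] (G : SimpleGraph V) (hG : IsCubic G) :
    List.TFAE
      [∃ F₁ F₂ : SimpleGraph V, IsDecomp G F₁ F₂ ∧ IsLinearForest 3 F₁ ∧ IsLinearForest 3 F₂,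
       ∃ F₁ F₂ : SimpleGraph V, IsDecomp G F₁ F₂ ∧ IsLinearForest 3 F₁ ∧ IsLinearForest 3 F₂ ∧
         Nonempty (F₁ ≃g F₂),
       ∃ c : V → Bool, ∀ v, ∃! w, G.Adj v w ∧ c w = c v] := by
  haveI := Fintype.ofFinite V
  tfae_have 3 → 2 := by
    rintro ⟨c, hc⟩
    exact forward hG hc
  tfae_have 2 → 1 := by
    rintro ⟨F₁, F₂, hD, h1, h2, -⟩
    exact ⟨F₁, F₂, hD, h1, h2⟩
  tfae_have 1 → 3 := by
    rintro ⟨F₁, F₂, hD, h1, h2⟩
    exact backward hG hD h1 h2
  tfae_finish

end Pool.Agent.Results.MP_098c70_co.ThreeLinear
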